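import Pool.Agent.W2helper61.PF.Stm

/-!
# Piece CNT of project PF: there are few claims
-/

set_option autoImplicit false

namespace Pool.Agent.W2helper98.PF

open Pool.Agent.NPC Pool.Agent.H622R2 Pool.Agent.H620R2.Gauge Pool.Agent.W2helper61.RF
open Pool.Agent.W2helper61.PF

/-- the strings of length at most `k` -/
def strs : ℕ → Finset (List Bool)
  | 0 => {[]}
  | k + 1 => insert [] ((strs k).image (List.cons true) ∪ (strs k).image (List.cons false))

theorem mem_strs (k : ℕ) : ∀ u : List Bool, u.length ≤ k → u ∈ strs k := by
  induction k with
  | zero =>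
    intro u hu
    have : u = [] := List.length_eq_zero_iff.1 (by omega)
    subst this
    simp [strs]
  | succ k ih =>
    intro u hu
    cases u with
    | nil => simp [strs]
    | cons a u =>
      have h1 : u ∈ strs k := ih u (by simpa using hu)
      cases a <;> simp [strs, h1]

theorem card_strs (k : ℕ) : (strs k).card + 1 ≤ 2 ^ (k + 1) := by
  induction k with
  | zero => simp [strs]
  | succ k ih =>
    have h1 : (strs (k + 1)).card ≤
        ((strs k).image (List.cons true) ∪ (strs k).image (List.cons false)).card + 1 :=
      Finset.card_insert_le _ _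
    have h2 : ((strs k).image (List.cons true) ∪ (strs k).image (List.cons false)).card ≤
        ((strs k).image (List.cons true)).card + ((strs k).image (List.cons false)).card :=
      Finset.card_union_le _ _
    have h3 : ((strs k).image (List.cons true)).card ≤ (strs k).card := Finset.card_image_le
    have h4 : ((strs k).image (List.cons false)).card ≤ (strs k).card := Finset.card_image_le
    have h5 : 2 ^ (k + 1 + 1) = 2 * 2 ^ (k + 1) := by rw [pow_succ]; ring
    omega

theorem CNT_ok : P_CNT := by
  classical
  have hne : Nonempty Fm := ⟨Fm.bot⟩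
  refine ⟨2 * Polynomial.X * (Polynomial.X + 1) * (Polynomial.X + 1), fun L => ?_⟩
  by_cases hL : L = 0
  · refine ⟨∅, by simp, ?_⟩
    rintro y ⟨F, n, m, -, -, -, -, h1, -⟩ h2
    have h3 : 1 ≤ 2 ^ F.enc.length := Nat.one_le_two_pow
    omega
  · refine ⟨((strs (Nat.log 2 L)) ×ˢ (Finset.range (L + 1) ×ˢ Finset.range (L + 1))).image
      (fun p => (clm (Function.invFun Fm.enc p.1) p.2.1 p.2.2).enc), ?_, ?_⟩
    · refine Finset.card_image_le.trans ?_
      rw [Finset.card_product, Finset.card_product, Finset.card_range]
      have h1 : (strs (Nat.log 2 L)).card ≤ 2 * L := by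
        have h2 := card_strs (Nat.log 2 L)
        have h3 : 2 ^ Nat.log 2 L ≤ L := Nat.pow_log_le_self 2 hL
        have h4 : 2 ^ (Nat.log 2 L + 1) = 2 * 2 ^ Nat.log 2 L := by rw [pow_succ]; ring
        omega
      have h5 : (2 * Polynomial.X * (Polynomial.X + 1) * (Polynomial.X + 1) :
          Polynomial ℕ).eval L = 2 * L * (L + 1) * (L + 1) := by
        simp
      rw [h5, mul_assoc (2 * L)]
      exact Nat.mul_le_mul_right _ h1
    · rintro y ⟨F, n, m, -, -, hy, hn, h1, -⟩ h2
      rw [Finset.mem_image]
      refine ⟨(F.enc, n, m), ?_, ?_⟩
      · rw [Finset.mem_product, Finset.mem_product, Finset.mem_range, Finset.mem_range]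
        refine ⟨mem_strs _ _ ?_, ?_, ?_⟩
        · exact Nat.le_log_of_pow_le (by norm_num) (h1.trans h2)
        · show n < L + 1
          omega
        · show m < L + 1
          have h3 : y.length = 2 + ((pad m).enc.length + (con F n).enc.length) := by
            rw [hy]
            show (true :: false :: ((pad m).enc ++ (con F n).enc)).length = _
            simp only [List.length_cons, List.length_append]
            omega
          rw [length_pad] at h3
          omega
      · show (clm (Function.invFun Fm.enc F.enc) n m).enc = y
        rw [Function.leftInverse_invFun Fm.enc_injective F, hy]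

end Pool.Agent.W2helper98.PF
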